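import Pool.Agent.helper96.DP.SpecE
import Pool.Agent.helper96.DP.Basic

/-!
# Module GL of project dp: gluing of arms through a corridor of loops
-/

namespace DP

theorem GL_p0 (x : V) (N : ℕ) (hN : 1 ≤ N) (w : V) (hw : sd x w = N)
    (hz : sd (zpt x N 0) w ≤ N / 64) : N - N / 64 ≤ pos x N w ∧ pos x N w ≤ N + N / 64 := by
  obtain ⟨p, q⟩ := w
  obtain ⟨x1, x2⟩ := x
  simp only [zpt, sd] at hw hz
  norm_num at hz
  have e0 : p = x1 + N := by omega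
  have e1 : q - x2 ≤ N / 64 := by omega
  have e2 : x2 - q ≤ N / 64 := by omega
  clear hw hz
  simp only [pos]
  rw [if_pos (by omega)]
  omega

theorem GL_p1 (x : V) (N : ℕ) (hN : 1 ≤ N) (w : V) (hw : sd x w = N)
    (hz : sd (zpt x N 1) w ≤ N / 64) :
    3 * N - N / 64 ≤ pos x N w ∧ pos x N w ≤ 3 * N + N / 64 := by
  obtain ⟨p, q⟩ := w
  obtain ⟨x1, x2⟩ := x
  simp only [zpt, sd] at hw hz
  norm_num at hz
  have e0 : q = x2 + N := by omega
  have e1 : p - x1 ≤ N / 64 := by omega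
  have e2 : x1 - p ≤ N / 64 := by omega
  clear hw hz
  simp only [pos]
  rw [if_neg (by omega), if_pos (by omega)]
  omega

theorem GL_p2 (x : V) (N : ℕ) (hN : 1 ≤ N) (w : V) (hw : sd x w = N)
    (hz : sd (zpt x N 2) w ≤ N / 64) :
    5 * N - N / 64 ≤ pos x N w ∧ pos x N w ≤ 5 * N + N / 64 := by
  obtain ⟨p, q⟩ := w
  obtain ⟨x1, x2⟩ := x
  simp only [zpt, sd] at hw hz
  norm_num at hz
  have e0 : p = x1 - N := by omega
  have e1 : q - x2 ≤ N / 64 := by omega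
  have e2 : x2 - q ≤ N / 64 := by omega
  clear hw hz
  simp only [pos]
  rw [if_neg (by omega), if_neg (by omega), if_pos (by omega)]
  omega

theorem GL_p3 (x : V) (N : ℕ) (hN : 1 ≤ N) (w : V) (hw : sd x w = N)
    (hz : sd (zpt x N 3) w ≤ N / 64) :
    7 * N - N / 64 ≤ pos x N w ∧ pos x N w ≤ 7 * N + N / 64 := by
  obtain ⟨p, q⟩ := w
  obtain ⟨x1, x2⟩ := x
  simp only [zpt, sd] at hw hz
  norm_num at hz
  have e0 : q = x2 - N := by omega
  have e1 : p - x1 ≤ N / 64 := by omega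
  have e2 : x1 - p ≤ N / 64 := by omega
  clear hw hz
  simp only [pos]
  rw [if_neg (by omega), if_neg (by omega), if_neg (by omega)]
  omega

/-- Points near the standard points alternate. -/
theorem GL_alt (x : V) (N : ℕ) (hN : 1 ≤ N) (w : ℕ → V) (hw : ∀ l < 4, w l ∈ bd x N)
    (hz : ∀ l < 4, sd (zpt x N l) (w l) ≤ N / 64) : alt x N (w 0) (w 1) (w 2) (w 3) := by
  have c0 := GL_p0 x N hN (w 0) (hw 0 (by norm_num)) (hz 0 (by norm_num))
  have c1 := GL_p1 x N hN (w 1) (hw 1 (by norm_num)) (hz 1 (by norm_num))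
  have c2 := GL_p2 x N hN (w 2) (hw 2 (by norm_num)) (hz 2 (by norm_num))
  have c3 := GL_p3 x N hN (w 3) (hw 3 (by norm_num)) (hz 3 (by norm_num))
  have m0 := hw 0 (by norm_num)
  have m1 := hw 1 (by norm_num)
  have m2 := hw 2 (by norm_num)
  have m3 := hw 3 (by norm_num)
  refine ⟨⟨m0, m1, m2, m3⟩, ?_, Or.inl ⟨⟨m0, m2, m1, ?_⟩, m2, m0, m3, ?_⟩⟩
  · have key : ∀ a b : V, pos x N a < pos x N b → a ≠ b := by
      rintro a b h rfl
      exact lt_irrefl _ h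
    have n01 := key (w 0) (w 1) (by omega)
    have n02 := key (w 0) (w 2) (by omega)
    have n03 := key (w 0) (w 3) (by omega)
    have n12 := key (w 1) (w 2) (by omega)
    have n13 := key (w 1) (w 3) (by omega)
    have n23 := key (w 2) (w 3) (by omega)
    simp only [List.nodup_cons, List.mem_cons, List.not_mem_nil, or_false, not_or, List.nodup_nil,
      and_true]
    exact ⟨⟨n01, n02, n03⟩, ⟨n12, n13⟩, n23, not_false⟩
  · rw [if_pos (by omega)]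
    omega
  · rw [if_neg (by omega)]
    omega

/-- The ends of standard arms when the other ends are not distinguished. -/
theorem GL_ends {c : V → Bool} {j : ℕ} {s : Bool} {x : V} {n : ℕ} {D : Dat} (hj : j = 2 ∨ j = 4)
    (h : Std c j s x n D) (I : Set V) (hI : ∀ i, D.I i = I) :
    ∀ l < j, ∃ p ∈ I, ∃ u ∈ bd x n, sd (zpt x n l) u ≤ n / 64 ∧
      Conn c (kol l) (HS s x n \ (D.N (kol l) ∪ opp j (zpt x n) (n / 8) (kol l))) p u := by
  intro l hl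
  have key : MrkC c j s x n D (zpt x n) (n / 64) (n / 8) (kol l) := by
    cases hk : kol l with
    | true => exact h.1
    | false => exact h.2
  rcases key with h1 | h1
  · obtain ⟨p, hp, u, hu, h2, h3⟩ := h1 l hl rfl
    exact ⟨p, hI l ▸ hp, u, hu, h2, h3⟩
  · have hl' : (l + 2) % j < j := Nat.mod_lt _ (by omega)
    have hk : kol ((l + 2) % j) = kol l := by
      unfold kol
      congr 1
      rcases hj with rfl | rfl <;> simp
    obtain ⟨p, hp, u, hu, h2, h3⟩ := h1 _ hl' hk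
    have he : ((l + 2) % j + 2) % j = l := by
      rcases hj with rfl | rfl <;> omega
    rw [he] at h2
    exact ⟨p, hI _ ▸ hp, u, hu, h2, h3⟩

theorem GL_loop_mem {c : V → Bool} {k : Bool} {g : V} {ℓ : ℕ} {S : Set V} (h : Loop c k g ℓ S) :
    S.Nonempty ∧ ∀ z ∈ S, ℓ < sd g z ∧ sd g z < 3 * ℓ ∧ c z = k := by
  obtain ⟨L, u, h1, -, rfl⟩ := h
  exact ⟨⟨u, h1.mem_left⟩, fun z hz => h1.subset z hz⟩

/-- Position of the standard points. -/
theorem GL_zpt_sd (x : V) (r l : ℕ) : sd x (zpt x r l) = r := by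
  unfold zpt
  split_ifs <;> simp [sd]

theorem GL_zpt_zpt (x : V) (r r' l : ℕ) (h : r ≤ r') : sd (zpt x r l) (zpt x r' l) = r' - r := by
  unfold zpt
  split_ifs <;> simp [sd] <;> omega

theorem GL_zpt_gnb (x : V) (ℓ a l t : ℕ) :
    gnb ℓ (zpt x (a + 2 * t * ℓ) l) (zpt x (a + 2 * (t + 1) * ℓ) l) := by
  unfold zpt gnb
  split_ifs
  · left
    ext <;> push_cast <;> ring
  · right; right; left
    ext <;> push_cast <;> ring
  · right; left
    ext <;> push_cast <;> ring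
  · right; right; right
    ext <;> push_cast <;> ring

/-- The connection through the corridor. -/
theorem GL_key (hLH : LH_stmt) (hLC : LC_stmt) (hCH : CH1_stmt) (c : V → Bool) (k : Bool) (x : V)
    (ℓ m n l : ℕ) (hℓ : 1 ≤ ℓ) (hm : m ≤ 512 * ℓ) (hn : 4096 * ℓ ≤ n) (p u₁ u₂ q : V)
    (S₁ S₂ : Set V) (hp : sd x p = m) (hu₁ : sd (zpt x (1024 * ℓ) l) u₁ ≤ 32 * ℓ)
    (h₁ : Conn c k (box x (1024 * ℓ) \ {v | sd x v < m}) p u₁) (hq : sd x q = n)
    (hu₂ : sd (zpt x (2048 * ℓ) l) u₂ ≤ 64 * ℓ)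
    (h₂ : Conn c k ({v | 2048 * ℓ ≤ sd x v} \ {v | n < sd x v}) q u₂)
    (hS₁ : Loop c k (zpt x (1024 * ℓ) l) (32 * ℓ) S₁)
    (hS₂ : Loop c k (zpt x (2048 * ℓ) l) (64 * ℓ) S₂)
    (hF : Full c k ℓ ((List.range (2 ^ 9 + 1)).map fun t => zpt x (1024 * ℓ + 2 * t * ℓ) l)) :
    Conn c k (ann x m n) q p := by
  set gs := (List.range (2 ^ 9 + 1)).map fun t => zpt x (1024 * ℓ + 2 * t * ℓ) l with hgs
  have hmem : ∀ t ≤ 2 ^ 9, zpt x (1024 * ℓ + 2 * t * ℓ) l ∈ gs := by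
    intro t ht
    rw [hgs, List.mem_map]
    exact ⟨t, List.mem_range.2 (by omega), rfl⟩
  have hchn : Chn ℓ gs := by
    unfold Chn
    rw [hgs, List.isChain_map, List.isChain_range_succ]
    intro t _
    exact GL_zpt_gnb x ℓ (1024 * ℓ) l t
  have hne : gs ≠ [] := List.ne_nil_of_mem (hmem 0 (by norm_num))
  obtain ⟨U, hU1, hU2, hU3⟩ := hCH c k ℓ gs hF hchn hne
  set g₁ := zpt x (1024 * ℓ) l with hg₁
  set g₂ := zpt x (2048 * ℓ) l with hg₂
  have hg₁m : g₁ ∈ gs := by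
    have := hmem 0 (by norm_num)
    simpa using this
  have hg₂m : g₂ ∈ gs := by
    have := hmem (2 ^ 9) le_rfl
    rwa [show 1024 * ℓ + 2 * 2 ^ 9 * ℓ = 2048 * ℓ by ring] at this
  have hxg₁ : sd x g₁ = 1024 * ℓ := GL_zpt_sd x _ l
  have hxg₂ : sd x g₂ = 2048 * ℓ := GL_zpt_sd x _ l
  have hgg : sd g₁ g₂ = 1024 * ℓ := by
    rw [hg₁, hg₂, GL_zpt_zpt _ _ _ _ (by omega)]
    omega
  obtain ⟨T₁, hT₁, hT₁U⟩ := hU3 g₁ hg₁m
  obtain ⟨T₂, hT₂, hT₂U⟩ := hU3 g₂ hg₂m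
  obtain ⟨⟨t₁, ht₁⟩, hT₁'⟩ := GL_loop_mem hT₁
  obtain ⟨⟨t₂, ht₂⟩, hT₂'⟩ := GL_loop_mem hT₂
  have hS₁' := (GL_loop_mem hS₁).2
  have hS₂' := (GL_loop_mem hS₂).2
  have a₁ := hT₁' t₁ ht₁
  have a₂ := hT₂' t₂ ht₂
  have hUU : Con U t₁ t₂ := hU2 _ (hT₁U ht₁) _ (hT₂U ht₂)
  -- inner arm meets the first big loop
  obtain ⟨z₁, hz₁, hz₁'⟩ := hLH c k g₁ (32 * ℓ) S₁ hS₁ _ u₁ p h₁.symm (by omega) (by
    have := sd_triangle x p g₁
    rw [sd_comm p g₁] at this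
    omega)
  -- the chain meets the first big loop
  obtain ⟨z₂, hz₂, hz₂'⟩ := hLH c k g₁ (32 * ℓ) S₁ hS₁ _ t₁ t₂ hUU (by omega) (by
    have := sd_triangle g₁ t₂ g₂
    rw [sd_comm t₂ g₂] at this
    omega)
  -- the chain meets the second big loop
  obtain ⟨z₃, hz₃, hz₃'⟩ := hLH c k g₂ (64 * ℓ) S₂ hS₂ _ t₂ t₁ hUU.symm (by omega) (by
    have := sd_triangle g₂ t₁ g₁
    rw [sd_comm t₁ g₁, sd_comm g₂ g₁] at this
    omega)
  -- the outer arm meets the second big loop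
  obtain ⟨z₄, hz₄, hz₄'⟩ := hLH c k g₂ (64 * ℓ) S₂ hS₂ _ u₂ q h₂.symm (by omega) (by
    have := sd_triangle x g₂ q
    omega)
  -- everything is in the annulus
  have i₁ : (box x (1024 * ℓ) \ {v | sd x v < m}) ⊆ ann x m n := by
    rintro v ⟨hv1, hv2⟩
    have h3 : sd x v ≤ 1024 * ℓ := hv1
    have h4 : ¬ sd x v < m := hv2
    exact ⟨by omega, by omega⟩
  have i₂ : ({v | 2048 * ℓ ≤ sd x v} \ {v | n < sd x v}) ⊆ ann x m n := by
    rintro v ⟨hv1, hv2⟩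
    have h3 : 2048 * ℓ ≤ sd x v := hv1
    have h4 : ¬ n < sd x v := hv2
    exact ⟨by omega, by omega⟩
  have i₃ : ∀ g v : V, ∀ r R : ℕ, sd x g = r → sd g v < R → m + R ≤ r → r + R ≤ n →
      v ∈ ann x m n := by
    intro g v r R h1 h2 h3 h4
    have h5 := sd_triangle x g v
    have h6 := sd_triangle x v g
    rw [sd_comm v g] at h6
    exact ⟨by omega, by omega⟩
  have s₁ : ∀ v ∈ S₁, v ∈ ann x m n ∧ c v = k := fun v hv =>
    ⟨i₃ g₁ v _ (96 * ℓ) hxg₁ (by have := hS₁' v hv; omega) (by omega) (by omega), (hS₁' v hv).2.2⟩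
  have s₂ : ∀ v ∈ S₂, v ∈ ann x m n ∧ c v = k := fun v hv =>
    ⟨i₃ g₂ v _ (192 * ℓ) hxg₂ (by have := hS₂' v hv; omega) (by omega) (by omega), (hS₂' v hv).2.2⟩
  have sU : ∀ v ∈ U, v ∈ ann x m n ∧ c v = k := by
    intro v hv
    obtain ⟨⟨g, hg, hgv⟩, hk⟩ := hU1 v hv
    rw [hgs, List.mem_map] at hg
    obtain ⟨t, ht, rfl⟩ := hg
    have ht' : t ≤ 2 ^ 9 := by
      have := List.mem_range.1 ht
      omega
    have ht2 : t * ℓ ≤ 512 * ℓ := Nat.mul_le_mul_right ℓ ht'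
    refine ⟨i₃ _ v _ (3 * ℓ) (GL_zpt_sd x _ l) hgv ?_ ?_, hk⟩ <;> nlinarith
  have c₁ : Conn c k (ann x m n) u₁ z₁ := (show Conn c k _ u₁ z₁ from hz₁').mono i₁
  have c₂ : Conn c k (ann x m n) z₁ z₂ := (hLC c k g₁ _ S₁ hS₁ z₁ hz₁ z₂ hz₂).mono s₁
  have c₃ : Conn c k (ann x m n) z₂ z₃ := (hU2 z₂ hz₂'.mem_right z₃ hz₃'.mem_right).mono sU
  have c₄ : Conn c k (ann x m n) z₃ z₄ := (hLC c k g₂ _ S₂ hS₂ z₃ hz₃ z₄ hz₄).mono s₂
  have c₅ : Conn c k (ann x m n) u₂ z₄ := (show Conn c k _ u₂ z₄ from hz₄').mono i₂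
  exact (h₂.mono i₂).trans (c₅.trans (c₄.symm.trans (c₃.symm.trans (c₂.symm.trans (c₁.symm.trans
    (h₁.mono i₁).symm)))))

theorem GL_thm (hLH : LH_stmt) (hLC : LC_stmt) (hCH : CH1_stmt) (hOT : OT_stmt) (hOF : OF_stmt) :
    GL_stmt := by
  intro c j x m i n gs hj hx hm hmi hn hi hin hout hl
  obtain ⟨e, rfl⟩ : ∃ e, i = e + 9 := ⟨i - 9, by omega⟩
  set ℓ : ℕ := 2 ^ e with hℓ
  have hℓ1 : 1 ≤ ℓ := Nat.one_le_two_pow
  have p1 : 2 ^ (e + 9 + 1) = 1024 * ℓ := by rw [hℓ]; ring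
  have p2 : 2 ^ (e + 9 + 2) = 2048 * ℓ := by rw [hℓ]; ring
  have p3 : 2 ^ (e + 9 + 3) = 4096 * ℓ := by rw [hℓ]; ring
  have p4 : 2 ^ (e + 9 - 4) = 32 * ℓ := by
    rw [hℓ, show e + 9 - 4 = e + 5 by omega]; ring
  have p5 : 2 ^ (e + 9 - 3) = 64 * ℓ := by
    rw [hℓ, show e + 9 - 3 = e + 6 by omega]; ring
  have p6 : 2 ^ (e + 9 - 9) = ℓ := by rw [hℓ]; congr 1
  rw [p1] at hmi hin hl
  rw [p2] at hout hl
  rw [p3] at hn
  rw [p4, p5, p6] at hl
  have hin' := GL_ends hj hin (bd x m) (fun _ => rfl)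
  have hout' := GL_ends hj hout (bd x n) (fun _ => rfl)
  choose! p hp u hu hpu hcon using hin'
  choose! q hq w hw hqw hcon' using hout'
  have hc1 : ∀ l < j, Conn c (kol l) (box x (1024 * ℓ) \ {v | sd x v < m}) (p l) (u l) := by
    intro l hlj
    refine (hcon l hlj).mono ?_
    rintro v ⟨hv1, hv2⟩
    exact ⟨hv1, fun hv => hv2 (Or.inl hv)⟩
  have hc2 : ∀ l < j, Conn c (kol l) ({v | 2048 * ℓ ≤ sd x v} \ {v | n < sd x v}) (q l) (w l) := by
    intro l hlj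
    refine (hcon' l hlj).mono ?_
    rintro v ⟨hv1, hv2⟩
    exact ⟨hv1, fun hv => hv2 (Or.inl hv)⟩
  have key : ∀ l < j, Conn c (kol l) (ann x m n) (q l) (p l) := by
    intro l hlj
    obtain ⟨⟨S₁, hS₁⟩, ⟨S₂, hS₂⟩, hgl, hfull⟩ := hl l hlj
    rw [hgl] at hfull
    refine GL_key hLH hLC hCH c (kol l) x ℓ m n l hℓ1 (by omega) hn (p l) (u l) (w l) (q l) S₁ S₂
      (hp l hlj) ?_ (hc1 l hlj) (hq l hlj) ?_ (hc2 l hlj) hS₁ hS₂ ?_
    · have := hpu l hlj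
      omega
    · have := hqw l hlj
      omega
    · exact hfull
  rcases hj with rfl | rfl
  · have h0 := key 0 (by norm_num)
    have h1 := key 1 (by norm_num)
    unfold ar
    rw [if_neg (by norm_num)]
    exact ⟨⟨p 0, hp 0 (by norm_num), q 0, hq 0 (by norm_num), h0.symm⟩,
      ⟨p 1, hp 1 (by norm_num), q 1, hq 1 (by norm_num), h1.symm⟩⟩
  · have h0 : Conn c true (ann x m n) (q 0) (p 0) := key 0 (by norm_num)
    have h1 : Conn c false (ann x m n) (q 1) (p 1) := key 1 (by norm_num)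
    have h2 : Conn c true (ann x m n) (q 2) (p 2) := key 2 (by norm_num)
    have h3 : Conn c false (ann x m n) (q 3) (p 3) := key 3 (by norm_num)
    have halt : alt x (2048 * ℓ) (w 0) (w 1) (w 2) (w 3) :=
      GL_alt x (2048 * ℓ) (by omega) w (fun l hl' => hw l hl') fun l hl' => hqw l hl'
    have hmono : ∀ (k : Bool) (a b : V),
        Conn c k ({v | 2048 * ℓ ≤ sd x v} \ {v | n < sd x v}) a b →
        Conn c k (ann x (2048 * ℓ) n) b a := by
      intro k a b hab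
      refine (hab.mono ?_).symm
      rintro v ⟨hv1, hv2⟩
      exact ⟨hv1, not_lt.1 hv2⟩
    have d0 : Conn c true (ann x (2048 * ℓ) n) (w 0) (q 0) := hmono _ _ _ (hc2 0 (by norm_num))
    have d1 : Conn c false (ann x (2048 * ℓ) n) (w 1) (q 1) := hmono _ _ _ (hc2 1 (by norm_num))
    have d2 : Conn c true (ann x (2048 * ℓ) n) (w 2) (q 2) := hmono _ _ _ (hc2 2 (by norm_num))
    have d3 : Conn c false (ann x (2048 * ℓ) n) (w 3) (q 3) := hmono _ _ _ (hc2 3 (by norm_num))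
    have haltq : alt x n (q 0) (q 1) (q 2) (q 3) :=
      hOT c true x (2048 * ℓ) n hx (by omega) (by omega) (w 0) (w 1) (w 2) (w 3) (q 0) (q 1) (q 2)
        (q 3) halt d0.colour_left d1.colour_left d2.colour_left d3.colour_left
        (hq 0 (by norm_num)) (hq 1 (by norm_num)) (hq 2 (by norm_num)) (hq 3 (by norm_num)) d0 d1
        d2 d3
    have c0 : c (q 0) = true := h0.colour_left
    have c1 : c (q 1) = false := h1.colour_left
    have c2 : c (q 2) = true := h2.colour_left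
    have c3 : c (q 3) = false := h3.colour_left
    have hnot : ¬ Conn c true (ann x m n) (q 0) (q 2) := by
      refine hOF c true x m n hx hm (by omega) (q 0) (q 1) (q 2) (q 3) haltq c0 c1 c2 c3 ?_ ?_ ?_ ?_
      · exact ⟨hq 0 (by norm_num), p 0, hp 0 (by norm_num), c0.symm ▸ h0⟩
      · exact ⟨hq 1 (by norm_num), p 1, hp 1 (by norm_num), c1.symm ▸ h1⟩
      · exact ⟨hq 2 (by norm_num), p 2, hp 2 (by norm_num), c2.symm ▸ h2⟩
      · exact ⟨hq 3 (by norm_num), p 3, hp 3 (by norm_num), c3.symm ▸ h3⟩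
    unfold ar
    rw [if_pos rfl]
    exact ⟨p 0, hp 0 (by norm_num), p 2, hp 2 (by norm_num), ⟨q 0, hq 0 (by norm_num), h0.symm⟩,
      ⟨q 2, hq 2 (by norm_num), h2.symm⟩, fun hcc => hnot (h0.trans (hcc.trans h2.symm))⟩

end DP
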